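import Pool.Agent.W819.EN.Geom

set_option autoImplicit false

namespace Pool.Agent.W918.EN
open H974 H906.Cyl Finset Pool.Agent.W819.EN

/-- first exit of a chain from the set `A` -/
theorem Ch_exit {X : Type*} {R S : X → X → Prop} (A : X → Prop) {K : ℕ} {a b : X}
    (h : Ch R S K a b) (ha : A a) (hb : ¬ A b) : ∃ (c' c : X) (K1 K2 : ℕ), A c' ∧ ¬ A c ∧
      (R c' c ∨ S c' c) ∧ K1 + K2 = K ∧
      Ch (fun p q => R p q ∧ A p) (fun p q => S p q ∧ A p) K1 a c ∧ Ch R S K2 c b := by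
  have key : ∀ {K : ℕ} {a b : X}, Ch R S K a b → A a →
      (A b ∧ Ch (fun p q => R p q ∧ A p) (fun p q => S p q ∧ A p) K a b) ∨
      ∃ (c' c : X) (K1 K2 : ℕ), A c' ∧ ¬ A c ∧ (R c' c ∨ S c' c) ∧ K1 + K2 = K ∧
        Ch (fun p q => R p q ∧ A p) (fun p q => S p q ∧ A p) K1 a c ∧ Ch R S K2 c b := by
    intro K a b h ha
    induction h with
    | refl k a => exact Or.inl ⟨ha, Ch.refl _ _⟩
    | @rel k a b' b hab hr ih =>
      rcases ih ha with ⟨h1, h2⟩ | ⟨c', c, K1, K2, h1, h2, h3, h4, h5, h6⟩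
      · by_cases hb : A b
        · exact Or.inl ⟨hb, Ch.rel h2 ⟨hr, h1⟩⟩
        · exact Or.inr ⟨b', b, k, 0, h1, hb, Or.inl hr, rfl, Ch.rel h2 ⟨hr, h1⟩, Ch.refl _ _⟩
      · exact Or.inr ⟨c', c, K1, K2, h1, h2, h3, h4, h5, Ch.rel h6 hr⟩
    | @step k a b' b hab hs ih =>
      rcases ih ha with ⟨h1, h2⟩ | ⟨c', c, K1, K2, h1, h2, h3, h4, h5, h6⟩
      · by_cases hb : A b
        · exact Or.inl ⟨hb, Ch.step h2 ⟨hs, h1⟩⟩
        · exact Or.inr ⟨b', b, k + 1, 0, h1, hb, Or.inr hs, rfl, Ch.step h2 ⟨hs, h1⟩,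
            Ch.refl _ _⟩
      · exact Or.inr ⟨c', c, K1, K2 + 1, h1, h2, h3, by omega, h5, Ch.step h6 hs⟩
  rcases key h ha with ⟨h1, -⟩ | h1
  · exact absurd h1 hb
  · exact h1

theorem nmv_lt {v : Vtx} {p : ℤ × ℤ} {m : ℤ} (h : nmv v p < m) :
    (p.1 - (v.1 + v.2)) + (p.2 - (v.1 - v.2)) < m ∧
    (p.1 - (v.1 + v.2)) - (p.2 - (v.1 - v.2)) < m ∧
    (p.2 - (v.1 - v.2)) - (p.1 - (v.1 + v.2)) < m ∧
    -(p.1 - (v.1 + v.2)) - (p.2 - (v.1 - v.2)) < m := by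
  unfold nmv at h
  have h1 := le_abs_self (p.1 - (v.1 + v.2))
  have h2 := neg_abs_le (p.1 - (v.1 + v.2))
  have h3 := le_abs_self (p.2 - (v.1 - v.2))
  have h4 := neg_abs_le (p.2 - (v.1 - v.2))
  refine ⟨?_, ?_, ?_, ?_⟩ <;> linarith

theorem nmv_lt' {v : Vtx} {p : ℤ × ℤ} {m : ℤ}
    (h1 : (p.1 - (v.1 + v.2)) + (p.2 - (v.1 - v.2)) < m)
    (h2 : (p.1 - (v.1 + v.2)) - (p.2 - (v.1 - v.2)) < m)
    (h3 : (p.2 - (v.1 - v.2)) - (p.1 - (v.1 + v.2)) < m)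
    (h4 : -(p.1 - (v.1 + v.2)) - (p.2 - (v.1 - v.2)) < m) : nmv v p < m := by
  unfold nmv
  rcases abs_cases (p.1 - (v.1 + v.2)) with h | h <;>
  rcases abs_cases (p.2 - (v.1 - v.2)) with h' | h' <;>
  · rw [h.1, h'.1]
    linarith

/-- an edge with a face at distance less than `R` lies in the box -/
theorem edz_mem {v : Vtx} {R j d : ℤ} (h : (nmv v (j, d) < 2 * R ∨ nmv v (j + 1, d + 1) < 2 * R) ∨
    (nmv v (j + 1, d) < 2 * R ∨ nmv v (j, d + 1) < 2 * R)) : edz j d ∈ bx v R := by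
  unfold edz bx
  split_ifs with h0
  · rw [mem_RE_true]
    rcases h with (h | h) | (h | h) <;>
    · have h1 := nmv_lt h
      simp only at h1
      omega
  · rw [mem_RE_false]
    rcases h with (h | h) | (h | h) <;>
    · have h1 := nmv_lt h
      simp only at h1
      omega

/-- the faces of an edge of the box are close -/
theorem edz_close {v : Vtx} {r j d : ℤ} (h : edz j d ∈ bx v (r - 1)) :
    (nmv v (j, d) < 2 * r ∧ nmv v (j + 1, d + 1) < 2 * r) ∧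
    (nmv v (j + 1, d) < 2 * r ∧ nmv v (j, d + 1) < 2 * r) := by
  unfold edz bx at h
  split_ifs at h with h0
  · rw [mem_RE_true] at h
    refine ⟨⟨?_, ?_⟩, ?_, ?_⟩ <;>
    · apply nmv_lt' <;> simp only <;> omega
  · rw [mem_RE_false] at h
    refine ⟨⟨?_, ?_⟩, ?_, ?_⟩ <;>
    · apply nmv_lt' <;> simp only <;> omega

theorem lnk_imp {G G' : Set Edg} {v : Vtx} {r R : ℕ}
    (h : ∀ e ∈ an v r R, (e ∈ G ↔ e ∈ G')) {p q : ℤ × ℤ}
    (hp : nmv v p < 2 * R ∨ nmv v q < 2 * R) (hq : 2 * (r : ℤ) < nmv v p ∨ 2 * (r : ℤ) < nmv v q)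
    (hl : lnk G p q) : lnk G' p q := by
  obtain ⟨a, s⟩ := p
  obtain ⟨b, t⟩ := q
  obtain ⟨h1, h2⟩ := hl
  simp only at h1 h2
  subst h1
  refine ⟨rfl, ?_⟩
  rcases h2 with ⟨h2, h3⟩ | ⟨h2, h3⟩
  · subst h2
    have e := h (edz a s) (by
      unfold an
      rw [mem_sdiff]
      refine ⟨edz_mem (Or.inl hp), fun hc => ?_⟩
      have h4 := (edz_close hc).1
      rcases hq with hq | hq
      · linarith [h4.1]
      · linarith [h4.2])
    refine Or.inl ⟨rfl, ?_⟩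
    simpa only [e] using h3
  · subst h2
    have e := h (edz b s) (by
      unfold an
      rw [mem_sdiff]
      refine ⟨edz_mem (Or.inr hp), fun hc => ?_⟩
      have h4 := (edz_close hc).2
      rcases hq with hq | hq
      · linarith [h4.1]
      · linarith [h4.2])
    refine Or.inr ⟨rfl, ?_⟩
    simpa only [e] using h3

theorem Mv_imp {G G' : Set Edg} {v : Vtx} {r R : ℕ}
    (h : ∀ e ∈ an v r R, (e ∈ G ↔ e ∈ G')) {p q : ℤ × ℤ}
    (hp : nmv v p < 2 * R ∨ nmv v q < 2 * R) (hq : 2 * (r : ℤ) < nmv v p ∨ 2 * (r : ℤ) < nmv v q)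
    (hl : Mv G p q) : Mv G' p q := by
  rcases hl with hl | hl
  · exact Or.inl (lnk_imp h hp hq hl)
  · exact Or.inr (lnk_imp h hp.symm hq.symm hl)

theorem Mv_symm {G : Set Edg} (a b : ℤ × ℤ) (h : Mv G a b) : Mv G b a := Or.symm h

theorem nb_symm {a b : ℤ} (h : nb a b) : nb b a := Or.symm h

theorem St_symm (a b : ℤ × ℤ) (h : St a b) : St b a := by
  rcases h with ⟨h1, h2⟩ | ⟨h1, h2⟩
  · exact Or.inl ⟨h1.symm, nb_symm h2⟩
  · exact Or.inr ⟨h1.symm, nb_symm h2⟩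

theorem DA_imp {G G' : Set Edg} {v : Vtx} {r R K : ℕ} (hrR : r ≤ R)
    (h : ∀ e ∈ an v r R, (e ∈ G ↔ e ∈ G')) (hD : DA G v r R K) : DA G' v r R K := by
  have hrR' : (r : ℤ) ≤ R := by exact_mod_cast hrR
  obtain ⟨p, q, hp, hq, hc⟩ := hD
  by_cases hpR : nmv v p < 2 * R
  · obtain ⟨_, c, K1, K2, _, hc2, _, hK, hc5, _⟩ :=
      Ch_exit (fun p : ℤ × ℤ => nmv v p < 2 * (R : ℤ)) hc hpR (not_lt.2 hq)
    have hc2' : 2 * (R : ℤ) ≤ nmv v c := not_lt.1 hc2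
    -- symmetric relations
    have hc6 : Ch (fun a b => Mv G a b ∧ (nmv v a < 2 * (R : ℤ) ∨ nmv v b < 2 * (R : ℤ))) St
        K1 p c := Ch.map (fun x => x) (fun a b h' => Ch.of_rel ⟨h'.1, Or.inl h'.2⟩)
      (fun a b h' => Ch.of_step h'.1) hc5
    have hc7 := Ch.symm (fun a b h' => ⟨Mv_symm a b h'.1, h'.2.symm⟩) St_symm hc6
    by_cases hcr : 2 * (r : ℤ) < nmv v c
    · obtain ⟨_, c3, K3, K4, _, hd2, _, hK', hd5, _⟩ :=
        Ch_exit (fun p : ℤ × ℤ => 2 * (r : ℤ) < nmv v p) hc7 hcr (not_lt.2 hp)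
      have hd6 : Ch (Mv G') St K3 c c3 := Ch.map (fun x => x)
        (fun a b h' => Ch.of_rel (Mv_imp h h'.1.2 (Or.inl h'.2) h'.1.1))
        (fun a b h' => Ch.of_step h'.1) hd5
      have hd7 := Ch.symm Mv_symm St_symm hd6
      exact ⟨c3, c, not_lt.1 hd2, hc2', hd7.mono (by omega)⟩
    · exact ⟨c, c, not_lt.1 hcr, hc2', Ch.refl _ _⟩
  · exact ⟨p, p, hp, not_lt.1 hpR, Ch.refl _ _⟩

theorem t_LOC : SLoc := by
  intro F v r R hrR
  have h : ∀ e ∈ an v r R, (e ∈ (↑F : Set Edg) ↔ e ∈ (↑(F ∩ an v r R) : Set Edg)) := by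
    intro e he
    rw [mem_coe, mem_coe, mem_inter]
    exact ⟨fun h => ⟨h, he⟩, fun h => h.1⟩
  unfold NA
  congr 1
  ext K
  exact ⟨fun hD => DA_imp hrR h hD, fun hD => DA_imp hrR (fun e he => (h e he).symm) hD⟩

end Pool.Agent.W918.EN
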